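import Pool.Agent.U307.RAD.Stm2

/-! Project RAD, package PRJ: only the component of type `-m` counts. -/

set_option autoImplicit false

open MeasureTheory Filter Topology Set
open scoped ENNReal SchwartzMap ComplexConjugate

namespace Pool.Agent.U864.RAD

open Pool.Agent.U307.RAD

theorem continuous_ee : Continuous ee := by
  unfold ee
  fun_prop

theorem norm_ee (t : ℝ) : ‖ee t‖ = 1 := by
  rw [ee, show 2 * (Real.pi : ℂ) * Complex.I * (t : ℂ) = ((2 * Real.pi * t : ℝ) : ℂ) * Complex.I by
    push_cast; ring, Complex.norm_exp_ofReal_mul_I]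

theorem t_PRJ : S_PRJ := by
  rintro m f hf G hG ⟨B, hB⟩
  have h1 : ∀ t : ℝ, ∫ z, f z * G z = ∫ z, f z * (ee t ^ m * G (ee t * z)) := by
    intro t
    let c : Circle := ⟨ee t, mem_sphere_zero_iff_norm.2 (norm_ee t)⟩
    have h2 := (rotation c).measurePreserving.integral_comp
      (rotation c).toHomeomorph.measurableEmbedding (fun z => f z * G z)
    rw [← h2]
    refine integral_congr_ae (ae_of_all _ fun z => ?_)
    change f (ee t * z) * G (ee t * z) = f z * (ee t ^ m * G (ee t * z))
    rw [hf _ _ (norm_ee t)]
    ring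
  have h3 : ∫ z, f z * G z = ∫ t in (0 : ℝ)..1, ∫ z, f z * (ee t ^ m * G (ee t * z)) := by
    rw [intervalIntegral.integral_congr (g := fun _ => ∫ z, f z * G z)
      (fun t _ => (h1 t).symm)]
    simp
  have hfi : Integrable (fun z => f z) (volume : Measure ℂ) := f.integrable
  have hint : Integrable (Function.uncurry
      (fun (t : ℝ) (z : ℂ) => f z * (ee t ^ m * G (ee t * z))))
      ((volume.restrict (Ioc (0 : ℝ) 1)).prod (volume : Measure ℂ)) := by
    have hb : Integrable (fun x : ℝ × ℂ => B * ‖f x.2‖)
        ((volume.restrict (Ioc (0 : ℝ) 1)).prod (volume : Measure ℂ)) :=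
      Integrable.mul_prod (f := fun _ : ℝ => B) (g := fun z : ℂ => ‖f z‖)
        (integrable_const B) hfi.norm
    refine hb.mono' ?_ (ae_of_all _ ?_)
    · have hc : Continuous (Function.uncurry
          (fun (t : ℝ) (z : ℂ) => f z * (ee t ^ m * G (ee t * z)))) := by
        have h4 : Continuous fun x : ℝ × ℂ => ee x.1 := continuous_ee.comp continuous_fst
        have h5 : Continuous fun x : ℝ × ℂ => f x.2 := f.continuous.comp continuous_snd
        exact h5.mul ((h4.pow m).mul (hG.comp (h4.mul continuous_snd)))
      exact hc.aestronglyMeasurable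
    · rintro ⟨t, z⟩
      simp only [Function.uncurry, norm_mul, norm_pow, norm_ee, one_pow, one_mul]
      rw [mul_comm B]
      exact mul_le_mul_of_nonneg_left (hB _) (norm_nonneg _)
  rw [h3, intervalIntegral.integral_of_le zero_le_one, integral_integral_swap hint]
  refine integral_congr_ae (ae_of_all _ fun z => ?_)
  simp only [PP]
  rw [intervalIntegral.integral_of_le zero_le_one, integral_const_mul]

end Pool.Agent.U864.RAD
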